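/-
Two disjoint connected spanning edge sets in a multigraph with many edges across every partition
(the tree packing theorem of Tutte and Nash-Williams for two trees), by a transcendence degree
argument.
-/
import Mathlib

set_option autoImplicit false

namespace Pool.Agent.JacksonH20

open scoped Classical
open Finset

set_option linter.unusedSectionVars false

section Kernel

variable {I E K : Type} [Fintype I] [Fintype E] [Field K] [CharZero K] [Algebra ℚ K]

/-- elements of the algebraic closure of a set, in the algebraic matroid -/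
theorem mem_cl_iff (Y : Set K) (a : K) :
    a ∈ (AlgebraicIndependent.matroid ℚ K).closure Y ↔
      IsAlgebraic (Algebra.adjoin ℚ Y) a := by
  rw [AlgebraicIndependent.matroid_closure_eq]
  rfl

theorem card_le_of_subset_cl {x : E → K} (hx : AlgebraicIndependent ℚ x) (N : Finset E)
    (Y : Finset K)
    (h : ∀ e ∈ N, IsAlgebraic (Algebra.adjoin ℚ (Y : Set K)) (x e)) : N.card ≤ Y.card := by
  have hinj : Function.Injective x := hx.injective
  have hind : (AlgebraicIndependent.matroid ℚ K).Indep (x '' (N : Set E)) := by
    rw [AlgebraicIndependent.matroid_indep_iff]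
    have := hx.to_subtype_range
    exact AlgebraicIndepOn.mono this (Set.image_subset_range _ _)
  have hsub : x '' (N : Set E) ⊆ (AlgebraicIndependent.matroid ℚ K).closure (Y : Set K) := by
    rintro _ ⟨e, he, rfl⟩
    rw [mem_cl_iff]
    exact h e he
  have h1 := hind.encard_le_eRk_of_subset hsub
  rw [Matroid.eRk_closure_eq] at h1
  have h2 := h1.trans ((AlgebraicIndependent.matroid ℚ K).eRk_le_encard (Y : Set K))
  rw [hinj.encard_image, Set.encard_coe_eq_coe_finsetCard, Set.encard_coe_eq_coe_finsetCard] at h2
  exact_mod_cast h2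

/-- The partition condition: across every partition of the vertices into `t` classes there are at
least `2 (t - 1)` edges. -/
def ManyCross (s t : E → I) : Prop :=
  ∀ r : Setoid I, 2 * Nat.card (Quotient r) ≤ (univ.filter fun e => ¬ r (s e) (t e)).card + 2

theorem kernel_eq_zero (s t : E → I) (i0 : I) (x : E → K) (hx : AlgebraicIndependent ℚ x)
    (hP : ManyCross s t) (α β : I → K) (hα0 : α i0 = 0) (hβ0 : β i0 = 0)
    (h : ∀ e, α (s e) - α (t e) + x e * (β (s e) - β (t e)) = 0) : α = 0 ∧ β = 0 := by
  by_contra hne
  set c : I → K × K := fun i => (α i, β i) with hc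
  have hc0 : c i0 = 0 := by simp [hc, hα0, hβ0]
  set Im : Finset (K × K) := univ.image c with hIm
  set P : Finset (K × K) := Im.erase 0 with hPdef
  have h0Im : (0 : K × K) ∈ Im := by rw [hIm, mem_image]; exact ⟨i0, mem_univ _, hc0⟩
  have hcardIm : Im.card = P.card + 1 := by
    rw [hPdef, card_erase_of_mem h0Im]
    have : 0 < Im.card := card_pos.mpr ⟨_, h0Im⟩
    omega
  have hquot : Nat.card (Quotient (Setoid.ker c)) = Im.card := by
    rw [Nat.card_congr (Setoid.quotientKerEquivRange c)]
    rw [Nat.card_coe_set_eq, Set.ncard_eq_toFinset_card' (Set.range c)]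
    congr 1
    ext p
    simp [hIm]
  have hcross := hP (Setoid.ker c)
  rw [hquot] at hcross
  set N : Finset E := univ.filter fun e => ¬ (Setoid.ker c) (s e) (t e) with hN
  have hPpos : 1 ≤ P.card := by
    by_contra hlt
    have hP0 : P = ∅ := by
      rw [← card_eq_zero]; omega
    apply hne
    have : ∀ i, c i = 0 := by
      intro i
      by_contra hi
      have : c i ∈ P := by
        rw [hPdef, mem_erase]
        exact ⟨hi, by rw [hIm]; exact mem_image_of_mem _ (mem_univ _)⟩
      rw [hP0] at this
      simp at this
    constructor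
    · funext i
      exact congrArg Prod.fst (this i)
    · funext i
      exact congrArg Prod.snd (this i)
  have hNpos : 0 < N.card := by omega
  obtain ⟨e0, he0⟩ := card_pos.mp hNpos
  have hmemN : ∀ e, e ∈ N ↔ c (s e) ≠ c (t e) := by
    intro e
    rw [hN, mem_filter]
    simp [Setoid.ker_def]
  have hβne : ∀ e ∈ N, β (s e) - β (t e) ≠ 0 := by
    intro e he hz
    have h1 := h e
    rw [hz, mul_zero, add_zero] at h1
    rw [hmemN] at he
    apply he
    simp only [hc, Prod.mk.injEq]
    exact ⟨sub_eq_zero.mp h1, sub_eq_zero.mp hz⟩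
  set l : K := β (s e0) - β (t e0) with hl
  have hl0 : l ≠ 0 := hβne e0 he0
  set p0 : K × K := if c (s e0) = 0 then c (t e0) else c (s e0) with hp0
  have hcne : c (s e0) ≠ c (t e0) := (hmemN e0).mp he0
  have hp0ne : p0 ≠ 0 := by
    rw [hp0]
    split_ifs with hz
    · intro h1
      exact hcne (hz.trans h1.symm)
    · exact hz
  have hmemP : ∀ i, c i ≠ 0 → c i ∈ P := by
    intro i hi
    rw [hPdef, mem_erase]
    exact ⟨hi, by rw [hIm]; exact mem_image_of_mem _ (mem_univ _)⟩
  have hp0P : p0 ∈ P := by
    rw [hp0] at hp0ne ⊢
    split_ifs with hz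
    · rw [if_pos hz] at hp0ne
      exact hmemP _ hp0ne
    · exact hmemP _ hz
  set Y : Finset K := P.image (fun p => p.1 / l) ∪ (P.erase p0).image (fun p => p.2 / l) with hY
  have hYcard : Y.card ≤ P.card + (P.card - 1) := by
    refine (card_union_le _ _).trans ?_
    refine add_le_add card_image_le ?_
    refine card_image_le.trans ?_
    rw [card_erase_of_mem hp0P]
  have hα : ∀ i, α i / l ∈ Algebra.adjoin ℚ (Y : Set K) := by
    intro i
    by_cases hi : c i = 0
    · have : α i = 0 := congrArg Prod.fst hi
      rw [this, zero_div]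
      exact Subalgebra.zero_mem _
    · apply Algebra.subset_adjoin
      rw [hY, coe_union]
      left
      rw [coe_image]
      exact ⟨c i, hmemP i hi, rfl⟩
  have hβ1 : ∀ i, c i ≠ p0 → β i / l ∈ Algebra.adjoin ℚ (Y : Set K) := by
    intro i hip
    by_cases hi : c i = 0
    · have : β i = 0 := congrArg Prod.snd hi
      rw [this, zero_div]
      exact Subalgebra.zero_mem _
    · apply Algebra.subset_adjoin
      rw [hY, coe_union]
      right
      rw [coe_image]
      exact ⟨c i, by rw [coe_erase]; exact ⟨hmemP i hi, hip⟩, rfl⟩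
  have hone : β (s e0) / l - β (t e0) / l = 1 := by
    rw [← sub_div, ← hl]; exact div_self hl0
  have hβ : ∀ i, β i / l ∈ Algebra.adjoin ℚ (Y : Set K) := by
    intro i
    by_cases hip : c i = p0
    · by_cases hz : c (s e0) = 0
      · have h1 : p0 = c (t e0) := by rw [hp0, if_pos hz]
        have h2 : β i = β (t e0) := congrArg Prod.snd (hip.trans h1)
        have h3 : c (s e0) ≠ p0 := by rw [h1]; exact hcne
        have h4 : β i / l = β (s e0) / l - 1 := by rw [h2, ← hone]; ring
        rw [h4]
        exact Subalgebra.sub_mem _ (hβ1 _ h3) (Subalgebra.one_mem _)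
      · have h1 : p0 = c (s e0) := by rw [hp0, if_neg hz]
        have h2 : β i = β (s e0) := congrArg Prod.snd (hip.trans h1)
        have h3 : c (t e0) ≠ p0 := by rw [h1]; exact hcne.symm
        have h4 : β i / l = β (t e0) / l + 1 := by rw [h2, ← hone]; ring
        rw [h4]
        exact Subalgebra.add_mem _ (hβ1 _ h3) (Subalgebra.one_mem _)
    · exact hβ1 i hip
  have hNle : N.card ≤ Y.card := by
    apply card_le_of_subset_cl hx
    intro e he
    have h1 := h e
    have h2 := hβne e he
    have h3 : x e = -(α (s e) / l - α (t e) / l) * (β (s e) / l - β (t e) / l)⁻¹ := by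
      have h4 : β (s e) / l - β (t e) / l ≠ 0 := by
        rw [← sub_div]; exact div_ne_zero h2 hl0
      rw [eq_mul_inv_iff_mul_eq₀ h4, ← sub_div, ← sub_div]
      have : x e * (β (s e) - β (t e)) = -(α (s e) - α (t e)) := by linear_combination h1
      rw [← mul_div_assoc, this, neg_div]
    rw [h3]
    have ha : IsAlgebraic (Algebra.adjoin ℚ (Y : Set K)) (-(α (s e) / l - α (t e) / l)) := by
      exact isAlgebraic_algebraMap (⟨_, Subalgebra.neg_mem _
        (Subalgebra.sub_mem _ (hα (s e)) (hα (t e)))⟩ : Algebra.adjoin ℚ (Y : Set K))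
    have hb : IsAlgebraic (Algebra.adjoin ℚ (Y : Set K)) (β (s e) / l - β (t e) / l) := by
      exact isAlgebraic_algebraMap (⟨_, 
        (Subalgebra.sub_mem _ (hβ (s e)) (hβ (t e)))⟩ : Algebra.adjoin ℚ (Y : Set K))
    exact ha.mul hb.inv
  omega

end Kernel

section Two

variable {I E : Type} [Fintype I] [Fintype E]

/-- an edge set crossing every nontrivial vertex cut -/
def CrossesAll (s t : E → I) (S : Finset E) : Prop :=
  ∀ U : Set I, (∃ i, i ∈ U) → (∃ i, i ∉ U) → ∃ e ∈ S, ¬ (s e ∈ U ↔ t e ∈ U)

theorem two_spanning (s t : E → I) (hP : ManyCross s t) :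
    ∃ S0 S1 : Finset E, Disjoint S0 S1 ∧ CrossesAll s t S0 ∧ CrossesAll s t S1 := by
  by_cases hI : Nonempty I
  swap
  · refine ⟨∅, ∅, disjoint_empty_left _, ?_, ?_⟩
    · rintro U ⟨i, _⟩; exact absurd ⟨i⟩ hI
    · rintro U ⟨i, _⟩; exact absurd ⟨i⟩ hI
  obtain ⟨i0⟩ := hI
  let K := FractionRing (MvPolynomial E ℚ)
  let x : E → K := fun e => algebraMap (MvPolynomial E ℚ) K (MvPolynomial.X e)
  have hx : AlgebraicIndependent ℚ x := by
    have h1 := MvPolynomial.algebraicIndependent_X E ℚ
    exact h1.map' (f := IsScalarTower.toAlgHom ℚ (MvPolynomial E ℚ) K)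
      (IsFractionRing.injective (MvPolynomial E ℚ) K)
  have hx0 : ∀ e, x e ≠ 0 := fun e => hx.ne_zero e
  let I' := {i : I // i ≠ i0}
  let v : E → (I' → K) := fun e i => (if s e = i then 1 else 0) - (if t e = i then 1 else 0)
  let w : E → (I' → K) × (I' → K) := fun e => (v e, x e • v e)
  -- pairing
  have hpair : ∀ (a : I' → K) (e : E),
      ∑ i, a i * v e i = (if h : s e ≠ i0 then a ⟨s e, h⟩ else 0)
        - (if h : t e ≠ i0 then a ⟨t e, h⟩ else 0) := by
    intro a e
    have key : ∀ j : I, ∑ i : I', a i * (if j = i.1 then (1 : K) else 0)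
        = if h : j ≠ i0 then a ⟨j, h⟩ else 0 := by
      intro j
      by_cases hj : j ≠ i0
      · rw [dif_pos hj, Finset.sum_eq_single (⟨j, hj⟩ : I')]
        · simp
        · intro b _ hb
          rw [if_neg, mul_zero]
          intro hjb
          exact hb (Subtype.ext hjb.symm)
        · intro hh; exact absurd (mem_univ _) hh
      · rw [dif_neg hj]
        apply Finset.sum_eq_zero
        intro b _
        rw [if_neg, mul_zero]
        intro hjb
        exact hj (hjb ▸ b.2)
    have : ∀ i, a i * v e i = a i * (if s e = i.1 then (1 : K) else 0)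
        - a i * (if t e = i.1 then (1 : K) else 0) := by
      intro i; simp only [v]; ring
    rw [Finset.sum_congr rfl (fun i _ => this i), Finset.sum_sub_distrib, key, key]
  have hspan : Submodule.span K (Set.range w) = ⊤ := by
    by_contra hne
    obtain ⟨f, hf0, hf⟩ := Submodule.exists_le_ker_of_lt_top _ (lt_top_iff_ne_top.mpr hne)
    let a : I' → K := fun i => f (Pi.single i 1, 0)
    let b : I' → K := fun i => f (0, Pi.single i 1)
    have hfab : ∀ p q : I' → K, f (p, q) = ∑ i, a i * p i + ∑ i, b i * q i := by
      intro p q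
      have h1 : f (p, 0) = ∑ i, a i * p i := by
        have hp : (p, (0 : I' → K)) = ∑ i, p i • ((Pi.single i (1 : K) : I' → K), (0 : I' → K)) := by
          apply Prod.ext
          · rw [Prod.fst_sum]
            simp only [Prod.smul_fst]
            funext j
            rw [Finset.sum_apply, Finset.sum_eq_single j]
            · simp
            · intro b _ hb
              simp [hb]
            · intro hh; exact absurd (mem_univ _) hh
          · rw [Prod.snd_sum]
            simp
        rw [hp, map_sum]
        apply Finset.sum_congr rfl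
        intro i _
        rw [map_smul, smul_eq_mul, mul_comm]
      have h2 : f (0, q) = ∑ i, b i * q i := by
        have hq : ((0 : I' → K), q) = ∑ i, q i • ((0 : I' → K), (Pi.single i (1 : K) : I' → K)) := by
          apply Prod.ext
          · rw [Prod.fst_sum]
            simp
          · rw [Prod.snd_sum]
            simp only [Prod.smul_snd]
            funext j
            rw [Finset.sum_apply, Finset.sum_eq_single j]
            · simp
            · intro b _ hb
              simp [hb]
            · intro hh; exact absurd (mem_univ _) hh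
        rw [hq, map_sum]
        apply Finset.sum_congr rfl
        intro i _
        rw [map_smul, smul_eq_mul, mul_comm]
      have h3 : (p, q) = (p, (0 : I' → K)) + ((0 : I' → K), q) := by simp
      rw [h3, map_add, h1, h2]
    let α : I → K := fun j => if h : j ≠ i0 then a ⟨j, h⟩ else 0
    let β : I → K := fun j => if h : j ≠ i0 then b ⟨j, h⟩ else 0
    have hker := kernel_eq_zero s t i0 x hx hP α β (by simp [α]) (by simp [β]) (by
      intro e
      have h1 : f (w e) = 0 := by
        have : w e ∈ LinearMap.ker f := hf (Submodule.subset_span ⟨e, rfl⟩)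
        exact this
      rw [hfab] at h1
      have h2 : ∑ i, b i * (x e • v e) i = x e * ∑ i, b i * v e i := by
        rw [Finset.mul_sum]
        apply Finset.sum_congr rfl
        intro i _
        rw [Pi.smul_apply, smul_eq_mul]; ring
      rw [h2, hpair a e, hpair b e] at h1
      exact h1)
    apply hf0
    apply LinearMap.ext
    rintro ⟨p, q⟩
    rw [hfab]
    have ha : ∀ i, a i = 0 := by
      intro i
      have := congrFun hker.1 i.1
      simpa [α, i.2] using this
    have hb : ∀ i, b i = 0 := by
      intro i
      have := congrFun hker.2 i.1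
      simpa [β, i.2] using this
    simp [ha, hb]
  obtain ⟨κ, g, hginj, hgsp, hgli⟩ := exists_linearIndependent' K w
  have : Finite κ := Finite.of_injective g hginj
  have : Fintype κ := Fintype.ofFinite κ
  rw [hspan] at hgsp
  let bs : Module.Basis κ K ((I' → K) × (I' → K)) := Module.Basis.mk hgli (by rw [hgsp])
  let m : κ → (I' → K) × (I' → K) := fun k => (v (g k), 0)
  let m' : κ → (I' → K) × (I' → K) := fun k => (0, x (g k) • v (g k))
  have hsum : m + m' = bs := by
    funext k
    simp only [bs, Module.Basis.mk_apply, Pi.add_apply, m, m', Function.comp, w]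
    simp
  have hdet : bs.det (m + m') = 1 := by rw [hsum]; exact bs.det_self
  have hexp : bs.det (m + m') = ∑ S : Finset κ, bs.det (S.piecewise m m') :=
    MultilinearMap.map_add_univ bs.det.toMultilinearMap m m'
  have hex : ∃ S : Finset κ, bs.det (S.piecewise m m') ≠ 0 := by
    by_contra hall
    push Not at hall
    rw [hexp, Finset.sum_eq_zero (fun S _ => hall S)] at hdet
    exact zero_ne_one hdet
  obtain ⟨S, hS⟩ := hex
  have hbase := (bs.is_basis_iff_det (v := S.piecewise m m')).mpr (isUnit_iff_ne_zero.mpr hS)
  obtain ⟨_, hsp⟩ := hbase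
  refine ⟨S.image g, Sᶜ.image g, ?_, ?_, ?_⟩
  · rw [Finset.disjoint_image hginj]
    exact disjoint_compl_right
  · -- first family
    have main : ∀ U : Set I, i0 ∉ U → (∃ i, i ∈ U) →
        ∃ e ∈ S.image g, ¬ (s e ∈ U ↔ t e ∈ U) := by
      rintro U h0 ⟨j, hj⟩
      by_contra hno
      push Not at hno
      let φ : ((I' → K) × (I' → K)) →ₗ[K] K :=
        (∑ i : I', (if i.1 ∈ U then (1 : K) else 0) • (LinearMap.proj i : (I' → K) →ₗ[K] K))
          ∘ₗ LinearMap.fst K _ _
      have hφ : ∀ p, φ p = ∑ i : I', (if i.1 ∈ U then (1 : K) else 0) * p.1 i := by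
        intro p
        simp only [φ, LinearMap.comp_apply, LinearMap.sum_apply, LinearMap.smul_apply,
          LinearMap.proj_apply, LinearMap.fst_apply, LinearMap.snd_apply, smul_eq_mul]
      have hzero : ∀ k, φ (S.piecewise m m' k) = 0 := by
        intro k
        by_cases hk : k ∈ S
        · rw [Finset.piecewise_eq_of_mem _ _ _ hk, hφ]
          simp only [m]
          have := hpair (fun i => if i.1 ∈ U then (1 : K) else 0) (g k)
          rw [this]
          have hiff := hno (g k) (mem_image_of_mem _ hk)
          have hs : (if h : s (g k) ≠ i0 then (if s (g k) ∈ U then (1:K) else 0) else 0)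
              = if s (g k) ∈ U then (1:K) else 0 := by
            by_cases h : s (g k) ≠ i0
            · rw [dif_pos h]
            · rw [dif_neg h]
              push Not at h
              rw [h, if_neg h0]
          have ht : (if h : t (g k) ≠ i0 then (if t (g k) ∈ U then (1:K) else 0) else 0)
              = if t (g k) ∈ U then (1:K) else 0 := by
            by_cases h : t (g k) ≠ i0
            · rw [dif_pos h]
            · rw [dif_neg h]
              push Not at h
              rw [h, if_neg h0]
          rw [hs, ht]
          by_cases h : s (g k) ∈ U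
          · rw [if_pos h, if_pos (hiff.mp h), sub_self]
          · rw [if_neg h, if_neg (fun h' => h (hiff.mpr h')), sub_self]
        · rw [Finset.piecewise_eq_of_notMem _ _ _ hk, hφ]
          simp [m']
      have hφ0 : φ = 0 := by
        apply LinearMap.ext_on_range hsp
        intro k
        rw [hzero k, LinearMap.zero_apply]
      have hj0 : j ≠ i0 := fun h => h0 (h ▸ hj)
      have h1 : φ ((Pi.single ⟨j, hj0⟩ 1 : I' → K), 0) = 1 := by
        rw [hφ]
        rw [Finset.sum_eq_single (⟨j, hj0⟩ : I')]
        · simp [hj]
        · intro b _ hb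
          simp [hb]
        · intro hh; exact absurd (mem_univ _) hh
      rw [hφ0] at h1
      simp at h1
    intro U hU hU'
    by_cases h0 : i0 ∈ U
    · obtain ⟨e, he, hne⟩ := main Uᶜ (by simpa using h0) (by
        obtain ⟨i, hi⟩ := hU'; exact ⟨i, hi⟩)
      refine ⟨e, he, fun hh => hne ?_⟩
      simp only [Set.mem_compl_iff]
      exact not_congr hh
    · exact main U h0 hU
  · -- second family
    have main : ∀ U : Set I, i0 ∉ U → (∃ i, i ∈ U) →
        ∃ e ∈ Sᶜ.image g, ¬ (s e ∈ U ↔ t e ∈ U) := by
      rintro U h0 ⟨j, hj⟩
      by_contra hno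
      push Not at hno
      let φ : ((I' → K) × (I' → K)) →ₗ[K] K :=
        (∑ i : I', (if i.1 ∈ U then (1 : K) else 0) • (LinearMap.proj i : (I' → K) →ₗ[K] K))
          ∘ₗ LinearMap.snd K _ _
      have hφ : ∀ p, φ p = ∑ i : I', (if i.1 ∈ U then (1 : K) else 0) * p.2 i := by
        intro p
        simp only [φ, LinearMap.comp_apply, LinearMap.sum_apply, LinearMap.smul_apply,
          LinearMap.proj_apply, LinearMap.fst_apply, LinearMap.snd_apply, smul_eq_mul]
      have hzero : ∀ k, φ (S.piecewise m m' k) = 0 := by
        intro k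
        by_cases hk : k ∈ S
        · rw [Finset.piecewise_eq_of_mem _ _ _ hk, hφ]
          simp [m]
        · rw [Finset.piecewise_eq_of_notMem _ _ _ hk, hφ]
          simp only [m', Pi.smul_apply, smul_eq_mul]
          have h2 : ∑ i : I', (if i.1 ∈ U then (1 : K) else 0) * (x (g k) * v (g k) i)
              = x (g k) * ∑ i : I', (if i.1 ∈ U then (1 : K) else 0) * v (g k) i := by
            rw [Finset.mul_sum]
            apply Finset.sum_congr rfl
            intro i _
            ring
          rw [h2]
          have := hpair (fun i => if i.1 ∈ U then (1 : K) else 0) (g k)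
          rw [this]
          have hiff := hno (g k) (mem_image_of_mem _ (mem_compl.mpr hk))
          have hs : (if h : s (g k) ≠ i0 then (if s (g k) ∈ U then (1:K) else 0) else 0)
              = if s (g k) ∈ U then (1:K) else 0 := by
            by_cases h : s (g k) ≠ i0
            · rw [dif_pos h]
            · rw [dif_neg h]
              push Not at h
              rw [h, if_neg h0]
          have ht : (if h : t (g k) ≠ i0 then (if t (g k) ∈ U then (1:K) else 0) else 0)
              = if t (g k) ∈ U then (1:K) else 0 := by
            by_cases h : t (g k) ≠ i0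
            · rw [dif_pos h]
            · rw [dif_neg h]
              push Not at h
              rw [h, if_neg h0]
          rw [hs, ht]
          by_cases h : s (g k) ∈ U
          · rw [if_pos h, if_pos (hiff.mp h), sub_self, mul_zero]
          · rw [if_neg h, if_neg (fun h' => h (hiff.mpr h')), sub_self, mul_zero]
      have hφ0 : φ = 0 := by
        apply LinearMap.ext_on_range hsp
        intro k
        rw [hzero k, LinearMap.zero_apply]
      have hj0 : j ≠ i0 := fun h => h0 (h ▸ hj)
      have h1 : φ (0, (Pi.single ⟨j, hj0⟩ 1 : I' → K)) = 1 := by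
        rw [hφ]
        rw [Finset.sum_eq_single (⟨j, hj0⟩ : I')]
        · simp [hj]
        · intro b _ hb
          simp [hb]
        · intro hh; exact absurd (mem_univ _) hh
      rw [hφ0] at h1
      simp at h1
    intro U hU hU'
    by_cases h0 : i0 ∈ U
    · obtain ⟨e, he, hne⟩ := main Uᶜ (by simpa using h0) (by
        obtain ⟨i, hi⟩ := hU'; exact ⟨i, hi⟩)
      refine ⟨e, he, fun hh => hne ?_⟩
      simp only [Set.mem_compl_iff]
      exact not_congr hh
    · exact main U h0 hU

end Two

end Pool.Agent.JacksonH20
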