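import Mathlib
import Pool.Agent.JacksonH20.TwoTrees

set_option autoImplicit false
set_option linter.unusedSectionVars false

namespace Pool.Agent.JacksonH20

open scoped Classical
open Finset

variable {V E : Type} [Fintype V] [Fintype E]

/-- the degrees modulo 2 of an edge set -/
noncomputable def bdry (s t : E → V) (J : Finset E) (v : V) : ZMod 2 :=
  ∑ e ∈ J, ((if s e = v then 1 else 0) + (if t e = v then 1 else 0))

theorem zmod2_cases (a : ZMod 2) : a = 0 ∨ a = 1 := by
  revert a; decide

theorem exists_join (s t : E → V) (S : Finset E) (hS : CrossesAll s t S) (R : V → ZMod 2)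
    (hR : ∑ v, R v = 0) : ∃ J ⊆ S, bdry s t J = R := by
  let vec : E → V → ZMod 2 := fun e v => (if s e = v then 1 else 0) + (if t e = v then 1 else 0)
  have hmem : R ∈ Submodule.span (ZMod 2) (Set.range (fun e : S => vec e.1)) := by
    by_contra hn
    obtain ⟨f, hfR, hf⟩ := Submodule.exists_le_ker_of_notMem hn
    let φ : V → ZMod 2 := fun v => f (Pi.single v 1)
    have hφ : ∀ x : V → ZMod 2, f x = ∑ v, φ v * x v := by
      intro x
      have hx : x = ∑ v, x v • (Pi.single v (1 : ZMod 2) : V → ZMod 2) := by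
        funext j
        rw [Finset.sum_apply, Finset.sum_eq_single j]
        · simp
        · intro b _ hb
          simp [hb]
        · intro hh; exact absurd (mem_univ _) hh
      conv_lhs => rw [hx]
      rw [map_sum]
      apply Finset.sum_congr rfl
      intro v _
      rw [map_smul, smul_eq_mul, mul_comm]
    have hind : ∀ j : V, ∑ v, φ v * (if j = v then (1 : ZMod 2) else 0) = φ j := by
      intro j
      rw [Finset.sum_eq_single j]
      · simp
      · intro b _ hb
        rw [if_neg (fun h => hb h.symm), mul_zero]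
      · intro hh; exact absurd (mem_univ _) hh
    have hedge : ∀ e ∈ S, φ (s e) = φ (t e) := by
      intro e he
      have h1 : f (vec e) = 0 := hf (Submodule.subset_span ⟨⟨e, he⟩, rfl⟩)
      rw [hφ] at h1
      simp only [vec, mul_add] at h1
      rw [Finset.sum_add_distrib, hind, hind] at h1
      rcases zmod2_cases (φ (s e)) with h | h <;> rcases zmod2_cases (φ (t e)) with h' | h' <;>
        rw [h, h'] at h1 ⊢ <;> revert h1 <;> decide
    have hor : (∀ v, φ v = 0) ∨ (∀ v, φ v = 1) := by
      by_contra hcon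
      push Not at hcon
      obtain ⟨⟨a, ha⟩, ⟨b, hb⟩⟩ := hcon
      obtain ⟨e, he, hne⟩ := hS {v | φ v = 1}
        ⟨a, (zmod2_cases (φ a)).resolve_left ha⟩ ⟨b, hb⟩
      apply hne
      simp only [Set.mem_ofPred_eq]
      rw [hedge e he]
    apply hfR
    rw [hφ]
    rcases hor with h | h
    · simp [h]
    · simp only [h, one_mul]
      exact hR
  rw [Submodule.mem_span_range_iff_exists_fun] at hmem
  obtain ⟨c, hc⟩ := hmem
  refine ⟨(univ.filter fun e : S => c e = 1).image Subtype.val, ?_, ?_⟩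
  · intro e he
    rw [mem_image] at he
    obtain ⟨a, _, rfl⟩ := he
    exact a.2
  · funext v
    rw [← hc]
    unfold bdry
    rw [Finset.sum_image (fun a _ b _ h => Subtype.ext h), Finset.sum_apply, Finset.sum_filter]
    apply Finset.sum_congr rfl
    intro e _
    rcases zmod2_cases (c e) with h | h
    · rw [h]; simp
    · rw [h]; simp [vec]

theorem bdry_symmDiff (s t : E → V) (A B : Finset E) :
    bdry s t (symmDiff A B) = bdry s t A + bdry s t B := by
  funext v
  rw [Pi.add_apply]
  unfold bdry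
  set g : E → ZMod 2 := fun e => (if s e = v then 1 else 0) + (if t e = v then 1 else 0) with hg
  have h1 : ∑ e ∈ A, g e = ∑ e ∈ A \ B, g e + ∑ e ∈ A ∩ B, g e := by
    rw [← Finset.sum_union (Finset.disjoint_sdiff_inter A B), Finset.sdiff_union_inter]
  have h2 : ∑ e ∈ B, g e = ∑ e ∈ B \ A, g e + ∑ e ∈ A ∩ B, g e := by
    rw [Finset.inter_comm, ← Finset.sum_union (Finset.disjoint_sdiff_inter B A),
      Finset.sdiff_union_inter]
  have h3 : ∑ e ∈ symmDiff A B, g e = ∑ e ∈ A \ B, g e + ∑ e ∈ B \ A, g e := by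
    rw [symmDiff_def, Finset.sup_eq_union, Finset.sum_union disjoint_sdiff_sdiff]
  rw [h1, h2, h3]
  have h4 : ∑ e ∈ A ∩ B, g e + ∑ e ∈ A ∩ B, g e = 0 := CharTwo.add_self_eq_zero _
  linear_combination -h4

theorem sum_bdry (s t : E → V) (A : Finset E) : ∑ v, bdry s t A v = 0 := by
  unfold bdry
  rw [Finset.sum_comm]
  apply Finset.sum_eq_zero
  intro e _
  rw [Finset.sum_add_distrib]
  simp only [Finset.sum_ite_eq, mem_univ, if_true]
  decide

/-- The assembly lemma: an even edge set crossing every cut. -/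
theorem exists_even_connected (s t : E → V) (ρ : Setoid V)
    (hP : ∀ r : Setoid V, ρ ≤ r →
      2 * Nat.card (Quotient r) ≤ (univ.filter fun e => ¬ r (s e) (t e)).card + 2)
    (hT : ∀ U : Set V, (∃ x y, ρ x y ∧ x ∈ U ∧ y ∉ U) →
      ∃ T : Finset E, T.card = 3 ∧ bdry s t T = 0 ∧ (∀ e ∈ T, ρ (s e) (t e)) ∧
        (T.filter fun e => (s e ∈ U ↔ t e ∈ U)).card ≤ 1) :
    ∃ D : Finset E, bdry s t D = 0 ∧ CrossesAll s t D := by
  let s' : E → Quotient ρ := fun e => Quotient.mk ρ (s e)
  let t' : E → Quotient ρ := fun e => Quotient.mk ρ (t e)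
  have hmc : ManyCross s' t' := by
    intro r'
    have hle : ρ ≤ r'.comap (Quotient.mk ρ) := by
      intro a b hab
      rw [Setoid.comap_rel]
      have : Quotient.mk ρ a = Quotient.mk ρ b := Quotient.sound hab
      rw [this]
    have h1 := hP _ hle
    have h2 : Nat.card (Quotient r') = Nat.card (Quotient (r'.comap (Quotient.mk ρ))) := by
      rw [Nat.card_congr (Setoid.comapQuotientEquiv (Quotient.mk ρ) r')]
      have : Set.range (@Quotient.mk'' _ r' ∘ Quotient.mk ρ) = Set.univ := by
        rw [Set.eq_univ_iff_forall]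
        intro q
        obtain ⟨q1, rfl⟩ := Quotient.exists_rep q
        obtain ⟨v, rfl⟩ := Quotient.exists_rep q1
        exact ⟨v, rfl⟩
      rw [this]
      exact (Nat.card_congr (Equiv.Set.univ _)).symm
    rw [h2]
    exact h1
  obtain ⟨S0, S1, hdisj, hS0, hS1⟩ := two_spanning s' t' hmc
  -- saturated cuts of V are crossed
  have sat : ∀ (S : Finset E), CrossesAll s' t' S → ∀ U : Set V,
      (¬ ∃ x y, ρ x y ∧ x ∈ U ∧ y ∉ U) → (∃ i, i ∈ U) → (∃ i, i ∉ U) →
        ∃ e ∈ S, ¬ (s e ∈ U ↔ t e ∈ U) := by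
    intro S hS U hsat ⟨a, ha⟩ ⟨b, hb⟩
    have hmemU : ∀ v, (Quotient.mk ρ v) ∈ {q : Quotient ρ | ∃ u, Quotient.mk ρ u = q ∧ u ∈ U}
        ↔ v ∈ U := by
      intro v
      constructor
      · rintro ⟨u, hu, huU⟩
        by_contra hv
        exact hsat ⟨u, v, Quotient.exact hu, huU, hv⟩
      · intro hv
        exact ⟨v, rfl, hv⟩
    obtain ⟨e, he, hne⟩ := hS {q : Quotient ρ | ∃ u, Quotient.mk ρ u = q ∧ u ∈ U}
      ⟨_, (hmemU a).mpr ha⟩ ⟨_, fun h => hb ((hmemU b).mp h)⟩
    refine ⟨e, he, fun hh => hne ?_⟩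
    rw [hmemU, hmemU]
    exact hh
  set Q : Finset E := univ.filter fun e => ρ (s e) (t e) with hQ
  set S1' : Finset E := S1.filter fun e => ¬ ρ (s e) (t e) with hS1'
  have hS1'cross : ∀ U : Set V, (¬ ∃ x y, ρ x y ∧ x ∈ U ∧ y ∉ U) → (∃ i, i ∈ U) → (∃ i, i ∉ U) →
        ∃ e ∈ S1', ¬ (s e ∈ U ↔ t e ∈ U) := by
    intro U hsat h1 h2
    obtain ⟨e, he, hne⟩ := sat S1 hS1 U hsat h1 h2
    refine ⟨e, ?_, hne⟩
    rw [hS1', mem_filter]
    refine ⟨he, fun hρ => hne ⟨fun hs => ?_, fun ht => ?_⟩⟩
    · by_contra hh; exact hsat ⟨_, _, hρ, hs, hh⟩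
    · by_contra hh; exact hsat ⟨_, _, ρ.symm hρ, ht, hh⟩
  have hcross0 : CrossesAll s t (S0 ∪ Q) := by
    intro U h1 h2
    by_cases hsat : ∃ x y, ρ x y ∧ x ∈ U ∧ y ∉ U
    · obtain ⟨T, hT3, _, hTρ, hT1⟩ := hT U hsat
      by_contra hno
      push Not at hno
      have : T.filter (fun e => (s e ∈ U ↔ t e ∈ U)) = T := by
        apply Finset.filter_true_of_mem
        intro e he
        apply hno e
        rw [mem_union]
        right
        rw [hQ, mem_filter]
        exact ⟨mem_univ _, hTρ e he⟩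
      rw [this] at hT1
      omega
    · obtain ⟨e, he, hne⟩ := sat S0 hS0 U hsat h1 h2
      exact ⟨e, mem_union_left _ he, hne⟩
  obtain ⟨J, hJ, hJb⟩ := exists_join s t (S0 ∪ Q) hcross0 (bdry s t S1') (sum_bdry s t S1')
  -- the family
  have hJS1 : Disjoint J S1' := by
    rw [Finset.disjoint_left]
    intro e he he1
    have h1 := hJ he
    rw [hS1', mem_filter] at he1
    rw [mem_union] at h1
    rcases h1 with h1 | h1
    · exact (Finset.disjoint_left.mp hdisj h1) he1.1
    · rw [hQ, mem_filter] at h1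
      exact he1.2 h1.2
  let Fam : Finset (Finset E) := univ.filter fun D => S1' ⊆ D ∧ bdry s t D = 0
  have hne : Fam.Nonempty := by
    refine ⟨symmDiff J S1', ?_⟩
    simp only [Fam, mem_filter, mem_univ, true_and]
    constructor
    · intro e he
      rw [Finset.mem_symmDiff]
      right
      exact ⟨he, fun h => Finset.disjoint_left.mp hJS1 h he⟩
    · rw [bdry_symmDiff, hJb]
      funext v
      rw [Pi.add_apply]
      exact CharTwo.add_self_eq_zero _
  obtain ⟨D, hD, hmax⟩ := Finset.exists_max_image Fam Finset.card hne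
  simp only [Fam, mem_filter, mem_univ, true_and] at hD
  refine ⟨D, hD.2, ?_⟩
  intro U h1 h2
  by_contra hno
  push Not at hno
  by_cases hsat : ∃ x y, ρ x y ∧ x ∈ U ∧ y ∉ U
  · obtain ⟨T, hT3, hTb, hTρ, hT1⟩ := hT U hsat
    have hD' : symmDiff D T ∈ Fam := by
      simp only [Fam, mem_filter, mem_univ, true_and]
      constructor
      · intro e he
        rw [Finset.mem_symmDiff]
        left
        refine ⟨hD.1 he, fun h => ?_⟩
        rw [hS1', mem_filter] at he
        exact he.2 (hTρ e h)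
      · rw [bdry_symmDiff, hD.2, hTb, add_zero]
    have hcard := hmax _ hD'
    have hint : (D ∩ T).card ≤ 1 := by
      refine le_trans (Finset.card_le_card ?_) hT1
      intro e he
      rw [mem_inter] at he
      rw [mem_filter]
      exact ⟨he.2, hno e he.1⟩
    have h3 : (symmDiff D T).card = (D \ T).card + (T \ D).card := by
      rw [symmDiff_def, Finset.sup_eq_union, Finset.card_union_of_disjoint disjoint_sdiff_sdiff]
    have h4 : (D \ T).card + (D ∩ T).card = D.card := Finset.card_sdiff_add_card_inter D T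
    have h5 : (T \ D).card + (T ∩ D).card = T.card := Finset.card_sdiff_add_card_inter T D
    rw [Finset.inter_comm] at h5
    omega
  · obtain ⟨e, he, hne⟩ := hS1'cross U hsat h1 h2
    exact hne (hno e (hD.1 he))

end Pool.Agent.JacksonH20
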