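import Mathlib

set_option autoImplicit false

namespace Pool.Agent.JacksonH20

open scoped Classical

variable {V : Type} [Fintype V]

/-- the number of edges of `G` leaving the vertex set `A` -/
noncomputable def leaving (G : SimpleGraph V) (A : Finset V) : ℕ :=
  {p : V × V | G.Adj p.1 p.2 ∧ p.1 ∈ A ∧ p.2 ∉ A}.ncard

/-- `T` is the vertex set of a triangle of `G` inside `A`, and at least four edges of `G` leave `T`
or `T` shares a vertex with another triangle of `G` inside `A` -/
def Rich (G : SimpleGraph V) (A T : Finset V) : Prop :=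
  G.IsNClique 3 T ∧ T ⊆ A ∧
    (4 ≤ leaving G T ∨
      ∃ T' : Finset V, G.IsNClique 3 T' ∧ T' ⊆ A ∧ T' ≠ T ∧ ∃ v ∈ T, v ∈ T')

/-- the sum of `4 - deg v` (`0` if `deg v ≥ 4`) over all `v` in `A` that lie on no rich triangle of
`A` -/
noncomputable def deficiency (G : SimpleGraph V) (A : Finset V) : ℕ :=
  ∑ v ∈ A, if ∃ T : Finset V, Rich G A T ∧ v ∈ T then 0 else 4 - (G.neighborSet v).ncard

/-- the conclusion of Q1: a connected even subgraph with at least four edges, each of whose bridges
has at most three edges of attachment -/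
def HasJacksonSubgraph (G : SimpleGraph V) : Prop :=
  ∃ H : SimpleGraph V, H ≤ G ∧ 4 ≤ H.edgeSet.ncard ∧
    (∀ v : V, Even (H.neighborSet v).ncard) ∧
    (∀ u ∈ H.support, ∀ v ∈ H.support, H.Reachable u v) ∧
    ∀ x : V, x ∉ H.support →
      {p : V × V | G.Adj p.1 p.2 ∧ p.1 ∈ H.support ∧ p.2 ∉ H.support ∧
        ∃ q : G.Walk x p.2, ∀ w ∈ q.support, w ∉ H.support}.ncard ≤ 3

end Pool.Agent.JacksonH20
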