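import Mathlib
import Pool.Agent.JacksonH20.Assemble
import Pool.Agent.JacksonH20.Defs

set_option autoImplicit false
set_option linter.unusedSectionVars false

namespace Pool.Agent.JacksonH20

open scoped Classical
open Finset

variable {V : Type} [Fintype V]

/-- an arbitrary ordering of the vertices -/
noncomputable def ord (v : V) : ℕ := (Fintype.equivFin V v : ℕ)

theorem ord_inj {u v : V} (h : ord u = ord v) : u = v := by
  unfold ord at h
  exact (Fintype.equivFin V).injective (Fin.ext h)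

/-- the edges of `G` inside `A`, oriented -/
def EIn (G : SimpleGraph V) (A : Finset V) : Type :=
  {p : V × V // G.Adj p.1 p.2 ∧ p.1 ∈ A ∧ p.2 ∈ A ∧ ord p.1 < ord p.2}

noncomputable instance (G : SimpleGraph V) (A : Finset V) : Fintype (EIn G A) := by
  unfold EIn; infer_instance

def src (G : SimpleGraph V) (A : Finset V) (e : EIn G A) : {v // v ∈ A} := ⟨e.1.1, e.2.2.1⟩
def tgt (G : SimpleGraph V) (A : Finset V) (e : EIn G A) : {v // v ∈ A} := ⟨e.1.2, e.2.2.2.1⟩

theorem EIn.ext' {G : SimpleGraph V} {A : Finset V} {e f : EIn G A}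
    (h1 : e.1.1 = f.1.1) (h2 : e.1.2 = f.1.2) : e = f :=
  Subtype.ext (Prod.ext h1 h2)

/-- the relation generated by the rich triangles inside `A` -/
def tri (G : SimpleGraph V) (A : Finset V) : Setoid {v // v ∈ A} :=
  Relation.EqvGen.setoid fun x y => ∃ T : Finset V, Rich G A T ∧ x.1 ∈ T ∧ y.1 ∈ T

theorem exists_sorted_triangle (G : SimpleGraph V) {T : Finset V} (hT : G.IsNClique 3 T) :
    ∃ a b c : V, ord a < ord b ∧ ord b < ord c ∧ G.Adj a b ∧ G.Adj a c ∧ G.Adj b c ∧
      T = {a, b, c} := by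
  rw [SimpleGraph.is3Clique_iff] at hT
  obtain ⟨a, b, c, hab, hac, hbc, rfl⟩ := hT
  have h1 : ord a ≠ ord b := fun h => hab.ne (ord_inj h)
  have h2 : ord a ≠ ord c := fun h => hac.ne (ord_inj h)
  have h3 : ord b ≠ ord c := fun h => hbc.ne (ord_inj h)
  rcases lt_or_gt_of_ne h1 with h1 | h1 <;> rcases lt_or_gt_of_ne h2 with h2 | h2 <;>
    rcases lt_or_gt_of_ne h3 with h3 | h3
  · exact ⟨a, b, c, h1, h3, hab, hac, hbc, rfl⟩
  · exact ⟨a, c, b, h2, h3, hac, hab, hbc.symm, by ext x; simp; tauto⟩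
  · exact absurd (h1.trans h3) (by omega)
  · exact ⟨c, a, b, h2, h1, hac.symm, hbc.symm, hab, by ext x; simp; tauto⟩
  · exact ⟨b, a, c, h1, h2, hab.symm, hbc, hac, by ext x; simp; tauto⟩
  · exact absurd (h1.trans h2) (by omega)
  · exact ⟨b, c, a, h3, h2, hbc, hab.symm, hac.symm, by ext x; simp; tauto⟩
  · exact ⟨c, b, a, h3, h1, hbc.symm, hac.symm, hab.symm, by ext x; simp; tauto⟩

theorem triangle_toggle (G : SimpleGraph V) (A : Finset V) (U : Set {v // v ∈ A})
    (h : ∃ x y, tri G A x y ∧ x ∈ U ∧ y ∉ U) :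
    ∃ T : Finset (EIn G A), T.card = 3 ∧ bdry (src G A) (tgt G A) T = 0 ∧
      (∀ e ∈ T, tri G A (src G A e) (tgt G A e)) ∧
      (T.filter fun e => (src G A e ∈ U ↔ tgt G A e ∈ U)).card ≤ 1 := by
  have h' : ∃ x y : {v // v ∈ A}, (∃ T : Finset V, Rich G A T ∧ x.1 ∈ T ∧ y.1 ∈ T) ∧
      x ∈ U ∧ y ∉ U := by
    obtain ⟨x, y, hxy, hx, hy⟩ := h
    by_contra hno
    push Not at hno
    have hkey : ∀ x y : {v // v ∈ A}, Relation.EqvGen
        (fun x y : {v // v ∈ A} => ∃ T : Finset V, Rich G A T ∧ x.1 ∈ T ∧ y.1 ∈ T) x y →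
        (x ∈ U ↔ y ∈ U) := by
      intro x y hxy
      induction hxy with
      | rel a b hab =>
        constructor
        · intro ha; exact hno a b hab ha
        · intro hb
          obtain ⟨T, hT, h1, h2⟩ := hab
          exact hno b a ⟨T, hT, h2, h1⟩ hb
      | refl a => exact Iff.rfl
      | symm a b _ ih => exact ih.symm
      | trans a b c _ _ ih1 ih2 => exact ih1.trans ih2
    exact hy ((hkey x y hxy).mp hx)
  obtain ⟨x, y, ⟨T, hT, hxT, hyT⟩, hx, hy⟩ := h'
  obtain ⟨a, b, c, hab, hbc, gab, gac, gbc, hTeq⟩ := exists_sorted_triangle G hT.1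
  have haT : a ∈ T := by rw [hTeq]; simp
  have hbT : b ∈ T := by rw [hTeq]; simp
  have hcT : c ∈ T := by rw [hTeq]; simp
  have haA := hT.2.1 haT
  have hbA := hT.2.1 hbT
  have hcA := hT.2.1 hcT
  let eab : EIn G A := ⟨(a, b), gab, haA, hbA, hab⟩
  let eac : EIn G A := ⟨(a, c), gac, haA, hcA, hab.trans hbc⟩
  let ebc : EIn G A := ⟨(b, c), gbc, hbA, hcA, hbc⟩
  have n1 : eab ≠ eac := by
    intro hh
    have : b = c := congrArg (fun e : EIn G A => e.1.2) hh
    exact gbc.ne this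
  have n2 : eab ≠ ebc := by
    intro hh
    have : a = b := congrArg (fun e : EIn G A => e.1.1) hh
    exact gab.ne this
  have n3 : eac ≠ ebc := by
    intro hh
    have : a = b := congrArg (fun e : EIn G A => e.1.1) hh
    exact gab.ne this
  have htri : ∀ u v : V, ∀ (hu : u ∈ A) (hv : v ∈ A), u ∈ T → v ∈ T →
      tri G A ⟨u, hu⟩ ⟨v, hv⟩ := by
    intro u v hu hv huT hvT
    exact Relation.EqvGen.rel _ _ ⟨T, hT, huT, hvT⟩
  refine ⟨{eab, eac, ebc}, ?_, ?_, ?_, ?_⟩
  · rw [Finset.card_insert_of_notMem, Finset.card_insert_of_notMem, Finset.card_singleton]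
    · simpa using n3
    · simp [n1, n2]
  · funext v
    unfold bdry
    rw [Finset.sum_insert (by simp [n1, n2]), Finset.sum_insert (by simpa using n3),
      Finset.sum_singleton]
    simp only [src, tgt, eab, eac, ebc, Pi.zero_apply]
    have key : ∀ p q r : ZMod 2, (p + q) + ((p + r) + (q + r)) = 0 := by decide
    exact key _ _ _
  · intro e he
    simp only [mem_insert, mem_singleton] at he
    rcases he with rfl | rfl | rfl
    · exact htri _ _ _ _ haT hbT
    · exact htri _ _ _ _ haT hcT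
    · exact htri _ _ _ _ hbT hcT
  · have hsep : ¬ (((⟨a, haA⟩ : {v // v ∈ A}) ∈ U ↔ (⟨b, hbA⟩ : {v // v ∈ A}) ∈ U) ∧
        ((⟨b, hbA⟩ : {v // v ∈ A}) ∈ U ↔ (⟨c, hcA⟩ : {v // v ∈ A}) ∈ U)) := by
      rintro ⟨h1, h2⟩
      have hall : ∀ z : {v // v ∈ A}, z.1 ∈ T → (z ∈ U ↔ (⟨a, haA⟩ : {v // v ∈ A}) ∈ U) := by
        rintro ⟨z, hz⟩ hzT
        rw [hTeq] at hzT
        simp only [mem_insert, mem_singleton] at hzT
        rcases hzT with rfl | rfl | rfl
        · exact Iff.rfl
        · exact h1.symm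
        · exact (h1.trans h2).symm
      exact hy ((hall y hyT).mpr ((hall x hxT).mp hx))
    rw [Finset.card_le_one]
    intro e he f hf
    simp only [mem_filter, mem_insert, mem_singleton] at he hf
    obtain ⟨he1, he2⟩ := he
    obtain ⟨hf1, hf2⟩ := hf
    rcases he1 with rfl | rfl | rfl <;> rcases hf1 with rfl | rfl | rfl <;> try rfl
    all_goals
      exfalso
      apply hsep
      simp only [src, tgt, eab, eac, ebc] at he2 hf2
      tauto

end Pool.Agent.JacksonH20
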