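import Mathlib
import Pool.Agent.JacksonH20.Core

set_option autoImplicit false
set_option linter.unusedSectionVars false

namespace Pool.Agent.JacksonH20

open scoped Classical
open Finset

variable {V : Type} [Fintype V]

/-- the subgraph with edge set `D` -/
def subOf (G : SimpleGraph V) (A : Finset V) (D : Finset (EIn G A)) : SimpleGraph V where
  Adj u v := ∃ e ∈ D, (e.1.1 = u ∧ e.1.2 = v) ∨ (e.1.1 = v ∧ e.1.2 = u)
  symm := ⟨by
    rintro u v ⟨e, he, h⟩
    exact ⟨e, he, h.symm⟩⟩
  loopless := ⟨by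
    rintro u ⟨e, he, h⟩
    have : e.1.1 = e.1.2 := by
      rcases h with h | h <;> rw [h.1, h.2]
    exact e.2.1.ne this⟩

theorem subOf_le (G : SimpleGraph V) (A : Finset V) (D : Finset (EIn G A)) : subOf G A D ≤ G := by
  rintro u v ⟨e, _, h⟩
  rcases h with ⟨rfl, rfl⟩ | ⟨rfl, rfl⟩
  · exact e.2.1
  · exact e.2.1.symm

theorem subOf_mem {G : SimpleGraph V} {A : Finset V} {D : Finset (EIn G A)} {u v : V}
    (h : (subOf G A D).Adj u v) : u ∈ A := by
  obtain ⟨e, _, h⟩ := h
  rcases h with ⟨rfl, rfl⟩ | ⟨rfl, rfl⟩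
  · exact e.2.2.1
  · exact e.2.2.2.1

theorem neighborSet_subOf (G : SimpleGraph V) (A : Finset V) (D : Finset (EIn G A)) (v : V) :
    (subOf G A D).neighborSet v =
      ((D.filter fun e => e.1.1 = v).image (fun e => e.1.2) ∪
        (D.filter fun e => e.1.2 = v).image (fun e => e.1.1) : Finset V) := by
  ext w
  rw [SimpleGraph.mem_neighborSet]
  simp only [coe_union, coe_image, coe_filter, Set.mem_union, Set.mem_image, Set.mem_ofPred_eq]
  constructor
  · rintro ⟨e, he, h⟩
    rcases h with ⟨h1, h2⟩ | ⟨h1, h2⟩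
    · exact Or.inl ⟨e, ⟨he, h1⟩, h2⟩
    · exact Or.inr ⟨e, ⟨he, h2⟩, h1⟩
  · rintro (⟨e, ⟨he, h1⟩, h2⟩ | ⟨e, ⟨he, h1⟩, h2⟩)
    · exact ⟨e, he, Or.inl ⟨h1, h2⟩⟩
    · exact ⟨e, he, Or.inr ⟨h2, h1⟩⟩

theorem ncard_neighborSet_subOf (G : SimpleGraph V) (A : Finset V) (D : Finset (EIn G A)) (v : V) :
    ((subOf G A D).neighborSet v).ncard =
      (D.filter fun e => e.1.1 = v).card + (D.filter fun e => e.1.2 = v).card := by
  rw [neighborSet_subOf, Set.ncard_coe_finset, Finset.card_union_of_disjoint,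
    Finset.card_image_of_injOn, Finset.card_image_of_injOn]
  · intro e he f hf hef
    simp only [coe_filter, Set.mem_ofPred_eq] at he hf
    exact EIn.ext' hef (he.2.trans hf.2.symm)
  · intro e he f hf hef
    simp only [coe_filter, Set.mem_ofPred_eq] at he hf
    exact EIn.ext' (he.2.trans hf.2.symm) hef
  · rw [Finset.disjoint_left]
    intro w hw hw'
    simp only [mem_image, mem_filter] at hw hw'
    obtain ⟨e, ⟨_, h1⟩, h2⟩ := hw
    obtain ⟨f, ⟨_, h3⟩, h4⟩ := hw'
    have h5 := e.2.2.2.2
    have h6 := f.2.2.2.2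
    rw [h1, h2] at h5
    rw [h3, h4] at h6
    omega

theorem jackson_of_partition (G : SimpleGraph V) (A : Finset V) (hA4 : 4 ≤ A.card)
    (hout : A = univ ∨ leaving G A ≤ 3)
    (hP : ∀ r : Setoid {v // v ∈ A}, tri G A ≤ r →
      2 * Nat.card (Quotient r) ≤
        (univ.filter fun e : EIn G A => ¬ r (src G A e) (tgt G A e)).card + 2) :
    HasJacksonSubgraph G := by
  obtain ⟨D, hD0, hDc⟩ := exists_even_connected (src G A) (tgt G A) (tri G A) hP
    (triangle_toggle G A)
  set H := subOf G A D with hH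
  have heven : ∀ v : V, Even (H.neighborSet v).ncard := by
    intro v
    by_cases hv : v ∈ A
    · rw [hH, ncard_neighborSet_subOf]
      have h1 := congrFun hD0 ⟨v, hv⟩
      have h2 : bdry (src G A) (tgt G A) D ⟨v, hv⟩ =
          ((D.filter fun e => e.1.1 = v).card : ZMod 2) +
            ((D.filter fun e => e.1.2 = v).card : ZMod 2) := by
        unfold bdry
        rw [Finset.sum_add_distrib, Finset.natCast_card_filter, Finset.natCast_card_filter]
        congr 1
        · apply Finset.sum_congr rfl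
          intro e _
          by_cases h : e.1.1 = v
          · rw [if_pos h, if_pos (Subtype.ext h)]
          · rw [if_neg h, if_neg (fun hh => h (congrArg Subtype.val hh))]
        · apply Finset.sum_congr rfl
          intro e _
          by_cases h : e.1.2 = v
          · rw [if_pos h, if_pos (Subtype.ext h)]
          · rw [if_neg h, if_neg (fun hh => h (congrArg Subtype.val hh))]
      rw [h2, Pi.zero_apply, ← Nat.cast_add, ZMod.natCast_eq_zero_iff] at h1
      exact (even_iff_two_dvd).mpr h1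
    · have : H.neighborSet v = ∅ := by
        rw [Set.eq_empty_iff_forall_notMem]
        intro w hw
        exact hv (subOf_mem hw)
      rw [this]
      simp
  have hsupp : ∀ v, v ∈ H.support ↔ v ∈ A := by
    intro v
    constructor
    · rintro ⟨w, hw⟩
      exact subOf_mem hw
    · intro hv
      have hex : ∃ w ∈ A, w ≠ v := by
        have : 1 < A.card := by omega
        exact Finset.exists_mem_ne this v
      obtain ⟨w, hw, hwv⟩ := hex
      obtain ⟨e, he, hne⟩ := hDc {x | x = ⟨v, hv⟩} ⟨⟨v, hv⟩, rfl⟩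
        ⟨⟨w, hw⟩, fun h => hwv (congrArg Subtype.val h)⟩
      simp only [Set.mem_ofPred_eq] at hne
      by_cases h1 : src G A e = ⟨v, hv⟩
      · refine ⟨e.1.2, e, he, Or.inl ⟨?_, rfl⟩⟩
        exact congrArg Subtype.val h1
      · by_cases h2 : tgt G A e = ⟨v, hv⟩
        · refine ⟨e.1.1, e, he, Or.inr ⟨rfl, ?_⟩⟩
          exact congrArg Subtype.val h2
        · exact absurd (iff_of_false h1 h2) hne
  refine ⟨H, subOf_le G A D, ?_, heven, ?_, ?_⟩
  · -- number of edges
    have h1 := H.sum_degrees_eq_twice_card_edges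
    have h2 : H.edgeSet.ncard = #H.edgeFinset := by
      rw [Set.ncard_eq_toFinset_card']
      rfl
    rw [h2]
    have h3 : ∀ v ∈ A, 2 ≤ H.degree v := by
      intro v hv
      have h4 : H.degree v = (H.neighborSet v).ncard := by
        rw [Set.ncard_eq_toFinset_card', ← SimpleGraph.card_neighborFinset_eq_degree]
        rfl
      have h5 := heven v
      rw [← h4] at h5
      have h6 : 0 < H.degree v := by
        rw [SimpleGraph.degree_pos_iff_mem_support]
        exact (hsupp v).mpr hv
      obtain ⟨k, hk⟩ := h5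
      omega
    have h7 : 2 * A.card ≤ ∑ v, H.degree v := by
      calc 2 * A.card = ∑ v ∈ A, 2 := by rw [Finset.sum_const, smul_eq_mul, mul_comm]
        _ ≤ ∑ v ∈ A, H.degree v := Finset.sum_le_sum h3
        _ ≤ ∑ v, H.degree v := Finset.sum_le_sum_of_subset (Finset.subset_univ _)
    omega
  · intro u hu v hv
    by_contra hno
    obtain ⟨e, he, hne⟩ := hDc {x | H.Reachable u x.1}
      ⟨⟨u, (hsupp u).mp hu⟩, SimpleGraph.Reachable.refl u⟩ ⟨⟨v, (hsupp v).mp hv⟩, hno⟩
    apply hne
    simp only [Set.mem_ofPred_eq]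
    have hadj : H.Adj (src G A e).1 (tgt G A e).1 := ⟨e, he, Or.inl ⟨rfl, rfl⟩⟩
    exact ⟨fun h => h.trans hadj.reachable, fun h => h.trans hadj.symm.reachable⟩
  · intro x hx
    rcases hout with hout | hout
    · exfalso
      apply hx
      rw [hsupp, hout]
      exact mem_univ _
    · refine le_trans (Set.ncard_le_ncard ?_ (Set.toFinite _)) hout
      rintro p ⟨h1, h2, h3, _⟩
      exact ⟨h1, (hsupp _).mp h2, fun h => h3 ((hsupp _).mpr h)⟩

end Pool.Agent.JacksonH20
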