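import Mathlib
import Pool.Agent.JacksonH20.Build

set_option autoImplicit false
set_option linter.unusedSectionVars false

namespace Pool.Agent.JacksonH20

open scoped Classical
open Finset

variable {V : Type} [Fintype V]

theorem leaving_eq (G : SimpleGraph V) (B : Finset V) :
    leaving G B = (univ.filter fun p : V × V => G.Adj p.1 p.2 ∧ p.1 ∈ B ∧ p.2 ∉ B).card := by
  unfold leaving
  rw [← Set.ncard_coe_finset]
  congr 1
  ext p
  simp

/-- the vertices of a class -/
noncomputable def cls (A : Finset V) (r : Setoid {v // v ∈ A}) (c : Quotient r) : Finset V :=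
  (univ.filter fun x : {v // v ∈ A} => Quotient.mk r x = c).image Subtype.val

theorem mem_cls {A : Finset V} {r : Setoid {v // v ∈ A}} {c : Quotient r} {v : V} :
    v ∈ cls A r c ↔ ∃ h : v ∈ A, Quotient.mk r ⟨v, h⟩ = c := by
  unfold cls
  simp only [mem_image, mem_filter, mem_univ, true_and, Subtype.exists, exists_and_right,
    exists_eq_right]

theorem cls_subset {A : Finset V} {r : Setoid {v // v ∈ A}} {c : Quotient r} : cls A r c ⊆ A := by
  intro v hv
  exact (mem_cls.mp hv).1

theorem cls_nonempty {A : Finset V} {r : Setoid {v // v ∈ A}} (c : Quotient r) :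
    (cls A r c).Nonempty := by
  obtain ⟨x, rfl⟩ := Quotient.exists_rep c
  exact ⟨x.1, mem_cls.mpr ⟨x.2, rfl⟩⟩

noncomputable def crossing (G : SimpleGraph V) (A : Finset V) (r : Setoid {v // v ∈ A}) :
    Finset (EIn G A) :=
  univ.filter fun e : EIn G A => ¬ r (src G A e) (tgt G A e)

theorem sum_leaving (G : SimpleGraph V) (A : Finset V) (r : Setoid {v // v ∈ A}) :
    ∑ c : Quotient r, leaving G (cls A r c) = 2 * (crossing G A r).card + leaving G A := by
  let P : Finset (V × V) := univ.filter fun p : V × V =>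
    G.Adj p.1 p.2 ∧ ∃ h1 : p.1 ∈ A, ∀ h2 : p.2 ∈ A, ¬ r ⟨p.1, h1⟩ ⟨p.2, h2⟩
  let F : Quotient r → Finset (V × V) := fun c =>
    univ.filter fun p : V × V => G.Adj p.1 p.2 ∧ p.1 ∈ cls A r c ∧ p.2 ∉ cls A r c
  have hP1 : P = univ.biUnion F := by
    ext p
    simp only [P, F, mem_filter, mem_univ, true_and, mem_biUnion, mem_cls]
    constructor
    · rintro ⟨hadj, h1, hno⟩
      refine ⟨Quotient.mk r ⟨p.1, h1⟩, hadj, ⟨h1, rfl⟩, ?_⟩
      rintro ⟨h2, h3⟩
      exact hno h2 (Quotient.exact h3.symm)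
    · rintro ⟨c, hadj, ⟨h1, h2⟩, h3⟩
      refine ⟨hadj, h1, fun h4 h5 => h3 ⟨h4, ?_⟩⟩
      rw [← h2]
      exact (Quotient.sound h5).symm
  have hPc : P.card = ∑ c : Quotient r, leaving G (cls A r c) := by
    rw [hP1, Finset.card_biUnion]
    · apply Finset.sum_congr rfl
      intro c _
      rw [leaving_eq]
    · intro c _ c' _ hcc
      rw [Function.onFun, Finset.disjoint_left]
      intro p hp hp'
      simp only [F, mem_filter, mem_univ, true_and, mem_cls] at hp hp'
      obtain ⟨_, ⟨h1, h2⟩, _⟩ := hp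
      obtain ⟨_, ⟨h3, h4⟩, _⟩ := hp'
      exact hcc (h2.symm.trans h4)
  let P1 : Finset (V × V) := univ.filter fun p : V × V =>
    G.Adj p.1 p.2 ∧ ∃ (h1 : p.1 ∈ A) (h2 : p.2 ∈ A), ¬ r ⟨p.1, h1⟩ ⟨p.2, h2⟩
  let P2 : Finset (V × V) := univ.filter fun p : V × V => G.Adj p.1 p.2 ∧ p.1 ∈ A ∧ p.2 ∉ A
  have hP2 : P = P1 ∪ P2 := by
    ext p
    simp only [P, P1, P2, mem_filter, mem_univ, true_and, mem_union]
    constructor
    · rintro ⟨hadj, h1, hno⟩
      by_cases h2 : p.2 ∈ A
      · exact Or.inl ⟨hadj, h1, h2, hno h2⟩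
      · exact Or.inr ⟨hadj, h1, h2⟩
    · rintro (⟨hadj, h1, h2, h3⟩ | ⟨hadj, h1, h2⟩)
      · exact ⟨hadj, h1, fun _ => h3⟩
      · exact ⟨hadj, h1, fun h3 => absurd h3 h2⟩
  have hdisj : Disjoint P1 P2 := by
    rw [Finset.disjoint_left]
    intro p hp hp'
    simp only [P1, P2, mem_filter, mem_univ, true_and] at hp hp'
    obtain ⟨_, _, h2, _⟩ := hp
    exact hp'.2.2 h2
  have hP1c : P1.card = 2 * (crossing G A r).card := by
    have heq : P1 = (crossing G A r).image (fun e => ((e.1.1, e.1.2) : V × V)) ∪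
        (crossing G A r).image (fun e => ((e.1.2, e.1.1) : V × V)) := by
      ext p
      simp only [P1, crossing, mem_filter, mem_univ, true_and, mem_union, mem_image]
      constructor
      · rintro ⟨hadj, h1, h2, h3⟩
        have hne : ord p.1 ≠ ord p.2 := fun h => hadj.ne (ord_inj h)
        rcases lt_or_gt_of_ne hne with hlt | hlt
        · exact Or.inl ⟨⟨(p.1, p.2), hadj, h1, h2, hlt⟩, h3, rfl⟩
        · exact Or.inr ⟨⟨(p.2, p.1), hadj.symm, h2, h1, hlt⟩, fun h => h3 (r.symm h), rfl⟩
      · rintro (⟨e, he, rfl⟩ | ⟨e, he, rfl⟩)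
        · exact ⟨e.2.1, e.2.2.1, e.2.2.2.1, he⟩
        · exact ⟨e.2.1.symm, e.2.2.2.1, e.2.2.1, fun h => he (r.symm h)⟩
    rw [heq, Finset.card_union_of_disjoint, Finset.card_image_of_injective,
      Finset.card_image_of_injective]
    · ring
    · intro e f hef
      simp only [Prod.mk.injEq] at hef
      exact EIn.ext' hef.2 hef.1
    · intro e f hef
      simp only [Prod.mk.injEq] at hef
      exact EIn.ext' hef.1 hef.2
    · rw [Finset.disjoint_left]
      intro p hp hp'
      simp only [mem_image] at hp hp'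
      obtain ⟨e, _, rfl⟩ := hp
      obtain ⟨f, _, hf⟩ := hp'
      simp only [Prod.mk.injEq] at hf
      have h5 := e.2.2.2.2
      have h6 := f.2.2.2.2
      rw [hf.1, hf.2] at h6
      omega
  rw [← hPc, hP2, Finset.card_union_of_disjoint hdisj, hP1c, leaving_eq]

/-- the term of the deficiency -/
noncomputable def dterm (G : SimpleGraph V) (A : Finset V) (v : V) : ℕ :=
  if ∃ T : Finset V, Rich G A T ∧ v ∈ T then 0 else 4 - (G.neighborSet v).ncard

theorem leaving_singleton (G : SimpleGraph V) (v : V) :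
    leaving G {v} = (G.neighborSet v).ncard := by
  unfold leaving
  have : {p : V × V | G.Adj p.1 p.2 ∧ p.1 ∈ ({v} : Finset V) ∧ p.2 ∉ ({v} : Finset V)} =
      (fun w => ((v, w) : V × V)) '' (G.neighborSet v) := by
    ext p
    simp only [mem_singleton, Set.mem_ofPred_eq, Set.mem_image, SimpleGraph.mem_neighborSet]
    constructor
    · rintro ⟨h1, h2, h3⟩
      exact ⟨p.2, h2 ▸ h1, by rw [← h2]⟩
    · rintro ⟨w, hw, rfl⟩
      exact ⟨hw, rfl, hw.ne'⟩
  rw [this, Set.ncard_image_of_injective]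
  intro a b hab
  exact (Prod.mk.inj hab).2

theorem rich_tri {G : SimpleGraph V} {A T : Finset V} (hT : Rich G A T) {u v : V}
    (hu : u ∈ T) (hv : v ∈ T) : tri G A ⟨u, hT.2.1 hu⟩ ⟨v, hT.2.1 hv⟩ :=
  Relation.EqvGen.rel _ _ ⟨T, hT, hu, hv⟩

/-- classes of a coarser relation are saturated by rich triangles -/
theorem rich_subset_cls {G : SimpleGraph V} {A : Finset V} {r : Setoid {v // v ∈ A}}
    (hr : tri G A ≤ r) {T : Finset V} (hT : Rich G A T) {c : Quotient r} {v : V} (hv : v ∈ T)
    (hvc : v ∈ cls A r c) : T ⊆ cls A r c := by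
  intro w hw
  obtain ⟨h1, h2⟩ := mem_cls.mp hvc
  refine mem_cls.mpr ⟨hT.2.1 hw, ?_⟩
  rw [← h2]
  exact Quotient.sound (hr (rich_tri hT hw hv))

theorem main_count (G : SimpleGraph V) (A : Finset V) (r : Setoid {v // v ∈ A})
    (hr : tri G A ≤ r) (hbig : ∀ c : Quotient r, 2 ≤ (cls A r c).card → 4 ≤ leaving G (cls A r c)) :
    4 * Nat.card (Quotient r) ≤
      2 * (crossing G A r).card + leaving G A + deficiency G A := by
  have hterm : ∀ c : Quotient r, 4 ≤ leaving G (cls A r c) + ∑ v ∈ cls A r c, dterm G A v := by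
    intro c
    by_cases h2 : 2 ≤ (cls A r c).card
    · exact (hbig c h2).trans (Nat.le_add_right _ _)
    · have h1 : (cls A r c).card = 1 := by
        have := (cls_nonempty c).card_pos
        omega
      obtain ⟨v, hv⟩ := Finset.card_eq_one.mp h1
      rw [hv, leaving_singleton, Finset.sum_singleton]
      unfold dterm
      rw [if_neg]
      · omega
      · rintro ⟨T, hT, hvT⟩
        have hsub := rich_subset_cls hr hT hvT (c := c) (by rw [hv]; simp)
        rw [hv] at hsub
        have := Finset.card_le_card hsub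
        rw [hT.1.card_eq, Finset.card_singleton] at this
        omega
  have hsum : 4 * Nat.card (Quotient r) ≤
      ∑ c : Quotient r, (leaving G (cls A r c) + ∑ v ∈ cls A r c, dterm G A v) := by
    calc 4 * Nat.card (Quotient r) = ∑ _c : Quotient r, 4 := by
          rw [Finset.sum_const, smul_eq_mul, Finset.card_univ, Nat.card_eq_fintype_card, mul_comm]
      _ ≤ _ := Finset.sum_le_sum (fun c _ => hterm c)
  rw [Finset.sum_add_distrib, sum_leaving] at hsum
  have hdef : ∑ c : Quotient r, ∑ v ∈ cls A r c, dterm G A v = deficiency G A := by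
    have h1 : ∀ c : Quotient r, ∑ v ∈ cls A r c, dterm G A v =
        ∑ x ∈ univ.filter (fun x : {v // v ∈ A} => Quotient.mk r x = c), dterm G A x.1 := by
      intro c
      unfold cls
      rw [Finset.sum_image (fun a _ b _ h => Subtype.ext h)]
    rw [Finset.sum_congr rfl (fun c _ => h1 c), Finset.sum_fiberwise]
    unfold deficiency
    rw [← Finset.sum_coe_sort A]
    rfl
  rw [hdef] at hsum
  exact hsum

theorem leaving_compl (G : SimpleGraph V) (B : Finset V) : leaving G Bᶜ = leaving G B := by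
  unfold leaving
  have : {p : V × V | G.Adj p.1 p.2 ∧ p.1 ∈ Bᶜ ∧ p.2 ∉ Bᶜ} =
      Prod.swap '' {p : V × V | G.Adj p.1 p.2 ∧ p.1 ∈ B ∧ p.2 ∉ B} := by
    ext p
    simp only [mem_compl, not_not, Set.mem_ofPred_eq, Set.mem_image, Prod.exists]
    constructor
    · rintro ⟨h1, h2, h3⟩
      exact ⟨p.2, p.1, ⟨h1.symm, h3, h2⟩, rfl⟩
    · rintro ⟨a, b, ⟨h1, h2, h3⟩, rfl⟩
      exact ⟨h1.symm, h3, h2⟩
  rw [this, Set.ncard_image_of_injective _ Prod.swap_injective]

/-- saturated sets -/
def Sat (G : SimpleGraph V) (A B : Finset V) : Prop :=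
  ∀ T : Finset V, Rich G A T → (∃ v ∈ T, v ∈ B) → T ⊆ B

theorem deficiency_le_sum {G : SimpleGraph V} {A B : Finset V} (hBA : B ⊆ A) (hS : Sat G A B) :
    deficiency G B ≤ ∑ v ∈ B, dterm G A v := by
  unfold deficiency
  apply Finset.sum_le_sum
  intro v hv
  unfold dterm
  by_cases h : ∃ T : Finset V, Rich G A T ∧ v ∈ T
  · obtain ⟨T, hT, hvT⟩ := h
    have hTB : T ⊆ B := hS T hT ⟨v, hvT, hv⟩
    rw [if_pos]
    · exact Nat.zero_le _
    · refine ⟨T, ⟨hT.1, hTB, ?_⟩, hvT⟩
      rcases hT.2.2 with h4 | ⟨T', hT', hT'A, hne, w, hwT, hwT'⟩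
      · exact Or.inl h4
      · right
        have hrich' : Rich G A T' := ⟨hT', hT'A, Or.inr ⟨T, hT.1, hT.2.1, hne.symm, w, hwT', hwT⟩⟩
        exact ⟨T', hT', hS T' hrich' ⟨w, hwT', hTB hwT⟩, hne, w, hwT, hwT'⟩
  · rw [if_neg h]
    split_ifs
    · exact Nat.zero_le _
    · exact le_rfl

theorem deficiency_mono {G : SimpleGraph V} {A B : Finset V} (hBA : B ⊆ A) (hS : Sat G A B) :
    deficiency G B ≤ deficiency G A := by
  refine (deficiency_le_sum hBA hS).trans ?_
  exact Finset.sum_le_sum_of_subset hBA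

/-- sum of the degrees over `A` -/
theorem sum_deg_le (G : SimpleGraph V) (A : Finset V) :
    ∑ v ∈ A, (G.neighborSet v).ncard ≤ A.card * A.card - A.card + leaving G A := by
  have h1 : ∑ v ∈ A, (G.neighborSet v).ncard =
      (univ.filter fun p : V × V => G.Adj p.1 p.2 ∧ p.1 ∈ A).card := by
    have : (univ.filter fun p : V × V => G.Adj p.1 p.2 ∧ p.1 ∈ A) =
        A.biUnion (fun v => (univ.filter fun w => G.Adj v w).image fun w => (v, w)) := by
      ext p
      simp only [mem_filter, mem_univ, true_and, mem_biUnion, mem_image]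
      constructor
      · rintro ⟨h1, h2⟩
        exact ⟨p.1, h2, p.2, h1, rfl⟩
      · rintro ⟨v, hv, w, hw, rfl⟩
        exact ⟨hw, hv⟩
    rw [this, Finset.card_biUnion]
    · apply Finset.sum_congr rfl
      intro v _
      rw [Finset.card_image_of_injective _ (fun a b hab => (Prod.mk.inj hab).2),
        ← Set.ncard_coe_finset]
      congr 1
      ext w
      simp
    · intro a _ b _ hab
      rw [Function.onFun, Finset.disjoint_left]
      intro p hp hp'
      simp only [mem_image] at hp hp'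
      obtain ⟨w, _, rfl⟩ := hp
      obtain ⟨w', _, h⟩ := hp'
      exact hab (Prod.mk.inj h).1.symm
  rw [h1, leaving_eq]
  have h2 : (univ.filter fun p : V × V => G.Adj p.1 p.2 ∧ p.1 ∈ A) ⊆
      A.offDiag ∪ (univ.filter fun p : V × V => G.Adj p.1 p.2 ∧ p.1 ∈ A ∧ p.2 ∉ A) := by
    intro p hp
    simp only [mem_filter, mem_univ, true_and, mem_union, mem_offDiag] at hp ⊢
    by_cases h : p.2 ∈ A
    · exact Or.inl ⟨hp.2, h, hp.1.ne⟩
    · exact Or.inr ⟨hp.1, hp.2, h⟩
  refine (Finset.card_le_card h2).trans ((Finset.card_union_le _ _).trans ?_)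
  rw [Finset.offDiag_card]

theorem four_le_card (G : SimpleGraph V) (A : Finset V) (h2 : 2 ≤ A.card)
    (hout : leaving G A ≤ 3) (hdef : deficiency G A ≤ 2) : 4 ≤ A.card := by
  by_contra hlt
  have hno : ∀ T : Finset V, ¬ Rich G A T := by
    intro T hT
    have hc : T.card = 3 := hT.1.card_eq
    have hTA : T = A := Finset.eq_of_subset_of_card_le hT.2.1 (by omega)
    rcases hT.2.2 with h4 | ⟨T', hT', hT'A, hne, _⟩
    · rw [hTA] at h4; omega
    · have hc' : T'.card = 3 := hT'.card_eq
      have : T' = A := Finset.eq_of_subset_of_card_le hT'A (by omega)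
      exact hne (this.trans hTA.symm)
  have hd : deficiency G A = ∑ v ∈ A, (4 - (G.neighborSet v).ncard) := by
    unfold deficiency
    apply Finset.sum_congr rfl
    intro v _
    rw [if_neg]
    rintro ⟨T, hT, _⟩
    exact hno T hT
  have h1 : 4 * A.card ≤ ∑ v ∈ A, (4 - (G.neighborSet v).ncard) +
      ∑ v ∈ A, (G.neighborSet v).ncard := by
    rw [← Finset.sum_add_distrib]
    calc 4 * A.card = ∑ v ∈ A, 4 := by rw [Finset.sum_const, smul_eq_mul, mul_comm]
      _ ≤ _ := Finset.sum_le_sum (fun v _ => by omega)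
  have h3 := sum_deg_le G A
  rw [← hd] at h1
  have h4 : A.card = 2 ∨ A.card = 3 := by omega
  rcases h4 with h4 | h4 <;> rw [h4] at h1 h3 <;> omega

theorem card_quot_le (G : SimpleGraph V) (A : Finset V) (r : Setoid {v // v ∈ A})
    {k : ℕ} (h : 4 * Nat.card (Quotient r) ≤ 2 * (crossing G A r).card + k) (hk : k ≤ 5) :
    2 * Nat.card (Quotient r) ≤ (crossing G A r).card + 2 := by
  omega

theorem local_jackson (G : SimpleGraph V) : ∀ (n : ℕ) (A : Finset V), A.card ≤ n → 2 ≤ A.card →
    leaving G A ≤ 3 → deficiency G A ≤ 2 → HasJacksonSubgraph G := by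
  intro n
  induction n with
  | zero => intro A h1 h2; omega
  | succ n ih =>
    intro A hAn h2 hout hdef
    by_cases hex : ∃ B : Finset V, B.card < A.card ∧ 2 ≤ B.card ∧ leaving G B ≤ 3 ∧
        deficiency G B ≤ 2
    · obtain ⟨B, hB1, hB2, hB3, hB4⟩ := hex
      exact ih B (by omega) hB2 hB3 hB4
    · push Not at hex
      apply jackson_of_partition G A (four_le_card G A h2 hout hdef) (Or.inr hout)
      intro r hr
      by_cases ht : Nat.card (Quotient r) ≤ 1
      · omega
      · have hproper : ∀ c : Quotient r, (cls A r c).card < A.card := by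
          intro c
          apply Finset.card_lt_card
          refine ⟨cls_subset, fun hsub => ht ?_⟩
          rw [Finite.card_le_one_iff_subsingleton]
          refine ⟨fun a b => ?_⟩
          obtain ⟨x, rfl⟩ := Quotient.exists_rep a
          obtain ⟨y, rfl⟩ := Quotient.exists_rep b
          obtain ⟨_, hx⟩ := mem_cls.mp (hsub x.2)
          obtain ⟨_, hy⟩ := mem_cls.mp (hsub y.2)
          exact hx.trans hy.symm
        have h4 := main_count G A r hr (by
          intro c hc
          by_contra hlt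
          have h5 := hex (cls A r c) (hproper c) hc (by omega)
          have h6 : deficiency G (cls A r c) ≤ deficiency G A := by
            apply deficiency_mono cls_subset
            rintro T hT ⟨v, hvT, hvc⟩
            exact rich_subset_cls hr hT hvT hvc
          omega)
        rw [add_assoc] at h4
        exact card_quot_le G A r h4 (by omega)

end Pool.Agent.JacksonH20
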