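import Mathlib
import Pool.Agent.JacksonH20.Count

set_option autoImplicit false
set_option linter.unusedSectionVars false

namespace Pool.Agent.JacksonH20

open scoped Classical
open Finset

variable {V : Type} [Fintype V]

theorem exists_adj_crossing {H : SimpleGraph V} (hH : H.Connected) (B : Finset V)
    (h1 : B.Nonempty) (h2 : ∃ w, w ∉ B) : ∃ u v, H.Adj u v ∧ u ∈ B ∧ v ∉ B := by
  obtain ⟨a, ha⟩ := h1
  obtain ⟨b, hb⟩ := h2
  obtain ⟨p⟩ := hH.preconnected a b
  obtain ⟨d, _, hd1, hd2⟩ := p.exists_boundary_dart (B : Set V) (by simpa using ha)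
    (by simpa using hb)
  exact ⟨d.fst, d.snd, d.adj, by simpa using hd1, by simpa using hd2⟩

theorem two_le_leaving {G : SimpleGraph V} (hc : G.Connected)
    (hb : ∀ e ∈ G.edgeSet, (G.deleteEdges {e}).Connected) (B : Finset V)
    (h1 : B.Nonempty) (h2 : ∃ w, w ∉ B) : 2 ≤ leaving G B := by
  obtain ⟨u, v, huv, hu, hv⟩ := exists_adj_crossing hc B h1 h2
  obtain ⟨u', v', huv', hu', hv'⟩ := exists_adj_crossing (hb s(u, v) huv) B h1 h2
  rw [SimpleGraph.deleteEdges_adj] at huv'
  unfold leaving
  have hne : ((u, v) : V × V) ≠ (u', v') := by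
    intro h
    obtain ⟨rfl, rfl⟩ := Prod.mk.inj h
    exact huv'.2 rfl
  have hsub : ({(u, v), (u', v')} : Set (V × V)) ⊆
      {p : V × V | G.Adj p.1 p.2 ∧ p.1 ∈ B ∧ p.2 ∉ B} := by
    rintro p (rfl | rfl)
    · exact ⟨huv, hu, hv⟩
    · exact ⟨huv'.1, hu', hv'⟩
  calc 2 = ({(u, v), (u', v')} : Set (V × V)).ncard := (Set.ncard_pair hne).symm
    _ ≤ _ := Set.ncard_le_ncard hsub (Set.toFinite _)

theorem sat_compl {G : SimpleGraph V} {B : Finset V} (hS : Sat G univ B) : Sat G univ Bᶜ := by
  rintro T hT ⟨v, hvT, hvB⟩ w hw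
  rw [mem_compl] at hvB ⊢
  intro hwB
  exact hvB (hS T hT ⟨w, hw, hwB⟩ hvT)

theorem leaving_univ (G : SimpleGraph V) : leaving G univ = 0 := by
  rw [leaving_eq]
  simp

theorem global_jackson (G : SimpleGraph V) (hc : G.Connected)
    (hb : ∀ e ∈ G.edgeSet, (G.deleteEdges {e}).Connected) (h4 : 4 ≤ G.edgeSet.ncard)
    (hdef : deficiency G univ ≤ 5) : HasJacksonSubgraph G := by
  by_cases hex : ∃ B : Finset V, Sat G univ B ∧ 2 ≤ B.card ∧ 2 ≤ Bᶜ.card ∧ leaving G B ≤ 3
  · obtain ⟨B, hS, hB1, hB2, hB3⟩ := hex
    have h1 := deficiency_le_sum (subset_univ B) hS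
    have h2 := deficiency_le_sum (subset_univ Bᶜ) (sat_compl hS)
    have h3 : ∑ v ∈ B, dterm G univ v + ∑ v ∈ Bᶜ, dterm G univ v = deficiency G univ := by
      rw [Finset.sum_add_sum_compl]
      rfl
    by_cases hd : deficiency G B ≤ 2
    · exact local_jackson G _ B le_rfl hB1 hB3 hd
    · exact local_jackson G _ Bᶜ le_rfl hB2 (by rw [leaving_compl]; exact hB3) (by omega)
  · push Not at hex
    have hV4 : 4 ≤ (univ : Finset V).card := by
      by_contra hlt
      rw [Finset.card_univ] at hlt
      have h1 : G.edgeFinset.card ≤ (Fintype.card V).choose 2 := G.card_edgeFinset_le_card_choose_two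
      have h2 : G.edgeSet.ncard = G.edgeFinset.card := by
        rw [Set.ncard_eq_toFinset_card']
        rfl
      rw [h2] at h4
      have h3 : Fintype.card V ≤ 3 := by omega
      have h5 : (Fintype.card V).choose 2 ≤ Nat.choose 3 2 := Nat.choose_le_choose 2 h3
      have h6 : Nat.choose 3 2 = 3 := by decide
      omega
    apply jackson_of_partition G univ hV4 (Or.inl rfl)
    intro r hr
    change 2 * Nat.card (Quotient r) ≤ (crossing G univ r).card + 2
    have hfull : ∀ c : Quotient r, ∀ v : V, v ∈ cls univ r c ↔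
        Quotient.mk r ⟨v, mem_univ v⟩ = c := by
      intro c v
      rw [mem_cls]
      exact ⟨fun ⟨_, h⟩ => h, fun h => ⟨mem_univ v, h⟩⟩
    by_cases ht1 : Nat.card (Quotient r) ≤ 1
    · omega
    by_cases ht2 : Nat.card (Quotient r) = 2
    · have hsum := sum_leaving G univ r
      rw [leaving_univ, add_zero] at hsum
      have hge : ∀ c : Quotient r, 2 ≤ leaving G (cls univ r c) := by
        intro c
        apply two_le_leaving hc hb _ (cls_nonempty c)
        by_contra hno
        push Not at hno
        apply ht1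
        rw [Finite.card_le_one_iff_subsingleton]
        refine ⟨fun a b => ?_⟩
        obtain ⟨x, rfl⟩ := Quotient.exists_rep a
        obtain ⟨y, rfl⟩ := Quotient.exists_rep b
        exact ((hfull c x.1).mp (hno x.1)).trans ((hfull c y.1).mp (hno y.1)).symm
      have h2 : ∑ _c : Quotient r, 2 ≤ ∑ c : Quotient r, leaving G (cls univ r c) :=
        Finset.sum_le_sum (fun c _ => hge c)
      rw [Finset.sum_const, smul_eq_mul, Finset.card_univ, ← Nat.card_eq_fintype_card, ht2,
        hsum] at h2
      omega
    · have ht3 : 3 ≤ Nat.card (Quotient r) := by omega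
      have hcount := main_count G univ r hr (by
        intro c hc2
        have hS : Sat G univ (cls univ r c) := by
          rintro T hT ⟨v, hvT, hvc⟩
          exact rich_subset_cls hr hT hvT hvc
        have hcompl : 2 ≤ (cls univ r c)ᶜ.card := by
          -- two further classes
          have h1 : 2 ≤ (univ.erase c : Finset (Quotient r)).card := by
            rw [Finset.card_erase_of_mem (mem_univ c), Finset.card_univ,
              ← Nat.card_eq_fintype_card]
            omega
          obtain ⟨a, ha, b, hb', hab⟩ := Finset.one_lt_card.mp h1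
          obtain ⟨x, hx⟩ := Quotient.exists_rep a
          obtain ⟨y, hy⟩ := Quotient.exists_rep b
          have hxc : x.1 ∈ (cls univ r c)ᶜ := by
            rw [mem_compl, hfull]
            intro h
            exact (ne_of_mem_erase ha) (hx.symm.trans h)
          have hyc : y.1 ∈ (cls univ r c)ᶜ := by
            rw [mem_compl, hfull]
            intro h
            exact (ne_of_mem_erase hb') (hy.symm.trans h)
          have hxy : x.1 ≠ y.1 := by
            intro h
            apply hab
            rw [← hx, ← hy]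
            exact congrArg _ (Subtype.ext h)
          exact Finset.one_lt_card.mpr ⟨x.1, hxc, y.1, hyc, hxy⟩
        have := hex (cls univ r c) hS hc2 hcompl
        omega)
      rw [leaving_univ, add_zero] at hcount
      exact card_quot_le G univ r hcount hdef

end Pool.Agent.JacksonH20
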